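import Pool.Agent.Helper43.RS.Spec

/-! # Module PLACE: the places at infinity of an affine curve -/

open Polynomial IsDedekindDomain

namespace Pool.Agent.Helper43.RS

namespace PLACE

/-! ## Noether normalization -/

theorem exists_x (O : Type) [CommRing O] [Algebra ℂ O] (h : CurveRing O) :
    ∃ x : O, x ≠ 0 ∧ ∀ f : O, IsIntegral (Algebra.adjoin ℂ {x}) f := by
  have := h.dom
  have := h.ft
  obtain ⟨s, g, hinj, hfin⟩ := exists_integral_inj_algHom_of_fg ℂ O
  have key : ∀ x : O, (∀ p, g p ∈ Algebra.adjoin ℂ {x}) →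
      ∀ f : O, IsIntegral (Algebra.adjoin ℂ {x}) f := by
    intro x hx f
    obtain ⟨p, hp, hpf⟩ := hfin f
    let g' : MvPolynomial (Fin s) ℂ →+* Algebra.adjoin ℂ {x} :=
      (g : MvPolynomial (Fin s) ℂ →+* O).codRestrict _ hx
    refine ⟨p.map g', hp.map g', ?_⟩
    rw [Polynomial.eval₂_map]
    exact hpf
  rcases Nat.lt_or_ge s 2 with hs | hs
  · interval_cases s
    · refine ⟨1, one_ne_zero, key 1 fun p => ?_⟩
      rw [MvPolynomial.eq_C_of_isEmpty p]
      rw [show g (MvPolynomial.C (MvPolynomial.coeff 0 p)) = algebraMap ℂ O (MvPolynomial.coeff 0 p)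
        from g.commutes _]
      exact Subalgebra.algebraMap_mem _ _
    · refine ⟨g (MvPolynomial.X 0), ?_, key _ fun p => ?_⟩
      · rw [Ne, map_eq_zero_iff g hinj]
        exact MvPolynomial.X_ne_zero 0
      · induction p using MvPolynomial.induction_on with
        | C a =>
          rw [show g (MvPolynomial.C a) = algebraMap ℂ O a from g.commutes _]
          exact Subalgebra.algebraMap_mem _ _
        | add p q hp hq => rw [map_add]; exact add_mem hp hq
        | mul_X p n hp =>
          rw [map_mul, Fin.fin_one_eq_zero n]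
          exact mul_mem hp (Algebra.self_mem_adjoin_singleton ℂ _)
  · exfalso
    let i : Fin 2 → Fin s := Fin.castLE hs
    have hi : Function.Injective i := Fin.castLE_injective hs
    obtain ⟨p, hp, hp0⟩ := h.dep (g (MvPolynomial.X (i 0))) (g (MvPolynomial.X (i 1)))
    apply hp
    apply MvPolynomial.rename_injective i hi
    apply hinj
    rw [map_zero, map_zero, ← hp0]
    have : ((g.comp (MvPolynomial.rename i)) : MvPolynomial (Fin 2) ℂ →ₐ[ℂ] O) =
        MvPolynomial.aeval ![g (MvPolynomial.X (i 0)), g (MvPolynomial.X (i 1))] := by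
      apply MvPolynomial.algHom_ext
      intro j
      fin_cases j <;> simp
    exact DFunLike.congr_fun this p

/-! ## Normalized valuations -/

/-- Two normalized discrete valuations with comparable valuation rings are equal. -/
theorem val_unique {F : Type} [Field F] (v v' : Valuation F (WithZero (Multiplicative ℤ)))
    (hv : Function.Surjective v) (hv' : Function.Surjective v')
    (h : ∀ u, v' u ≤ 1 → v u ≤ 1) : ∀ u, v u = v' u := by
  have h1 : ∀ u, v' u = 1 → v u = 1 := by
    intro u hu
    refine le_antisymm (h u hu.le) ?_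
    have h2 : v u⁻¹ ≤ 1 := h _ (by rw [map_inv₀, hu, inv_one])
    have h3 : v u ≠ 0 := by
      intro h4
      have : u = 0 := (Valuation.zero_iff v).mp h4
      rw [this, map_zero] at hu
      exact zero_ne_one hu
    rw [map_inv₀] at h2
    exact (inv_le_one₀ (zero_lt_iff.mpr h3)).mp h2
  obtain ⟨π, hπ⟩ := hv' (WithZero.exp (-1))
  have hπ0 : π ≠ 0 := by
    rintro rfl
    rw [map_zero] at hπ
    exact WithZero.exp_ne_zero hπ.symm
  have hvπ0 : v π ≠ 0 := (Valuation.ne_zero_iff v).mpr hπ0
  -- general formula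
  have h2 : ∀ u, u ≠ 0 → WithZero.log (v u) = - WithZero.log (v' u) * WithZero.log (v π) := by
    intro u hu
    have hvu : v u ≠ 0 := (Valuation.ne_zero_iff v).mpr hu
    have hvu' : v' u ≠ 0 := (Valuation.ne_zero_iff v').mpr hu
    have h3 : v' (u * π ^ (WithZero.log (v' u))) = 1 := by
      have hne : v' (u * π ^ (WithZero.log (v' u))) ≠ 0 :=
        (Valuation.ne_zero_iff v').mpr (mul_ne_zero hu (zpow_ne_zero _ hπ0))
      rw [← WithZero.exp_log hne, map_mul, map_zpow₀, WithZero.log_mul hvu'
        (zpow_ne_zero _ ((Valuation.ne_zero_iff v').mpr hπ0)), WithZero.log_zpow, hπ,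
        WithZero.log_exp]
      simp
    have h4 := h1 _ h3
    rw [map_mul, map_zpow₀] at h4
    have h5 := congrArg WithZero.log h4
    rw [WithZero.log_mul hvu (zpow_ne_zero _ hvπ0), WithZero.log_zpow, WithZero.log_one] at h5
    rw [smul_eq_mul] at h5
    linarith
  have h3 : WithZero.log (v π) = -1 := by
    obtain ⟨u, hu⟩ := hv (WithZero.exp (-1))
    have hu0 : u ≠ 0 := by
      rintro rfl
      rw [map_zero] at hu
      exact WithZero.exp_ne_zero hu.symm
    have h4 := h2 u hu0
    rw [hu, WithZero.log_exp] at h4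
    have h5 : v π ≤ 1 := h π (by
      rw [hπ, ← WithZero.exp_zero, WithZero.exp_le_exp]; norm_num)
    have h6 : WithZero.log (v π) ≤ 0 := by
      rw [← WithZero.log_one, WithZero.log_le_log hvπ0 one_ne_zero]
      exact h5
    have h7 : WithZero.log (v π) ∣ 1 := ⟨WithZero.log (v' u), by linarith⟩
    rcases Int.isUnit_iff.mp (isUnit_of_dvd_one h7) with h8 | h8
    · omega
    · exact h8
  intro u
  by_cases hu : u = 0
  · rw [hu, map_zero, map_zero]
  · have hvu : v u ≠ 0 := (Valuation.ne_zero_iff v).mpr hu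
    have hvu' : v' u ≠ 0 := (Valuation.ne_zero_iff v').mpr hu
    rw [← WithZero.exp_log hvu, h2 u hu, h3, ← WithZero.exp_log hvu']
    simp

/-! ## Constants -/

theorem const_of_forall {F : Type} [Field F] [Algebra ℂ F] (u : F)
    (h : ∀ V : ValuationSubring F, (∀ c : ℂ, algebraMap ℂ F c ∈ V) → u ∈ V) :
    ∃ c : ℂ, u = algebraMap ℂ F c := by
  have h1 : u ∈ (integralClosure (Subring.closure (Set.range (algebraMap ℂ F))) F).toSubring := by
    rw [← iInf_valuationSubring_superset, Subring.mem_iInf]
    rintro ⟨V, hV⟩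
    exact h V fun c => hV ⟨c, rfl⟩
  have h2 : IsIntegral (Subring.closure (Set.range (algebraMap ℂ F))) u := h1
  have h3 : IsIntegral ℂ u := by
    obtain ⟨p, hp, hpu⟩ := h2
    have h4 : ∀ a : Subring.closure (Set.range (algebraMap ℂ F)), ∃ c : ℂ,
        algebraMap ℂ F c = a := by
      rintro ⟨a, ha⟩
      have : Subring.closure (Set.range (algebraMap ℂ F)) ≤ (algebraMap ℂ F).range := by
        rw [Subring.closure_le]
        rintro _ ⟨c, rfl⟩
        exact ⟨c, rfl⟩
      exact this ha
    choose e he using h4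
    have h5 : p.map (algebraMap (Subring.closure (Set.range (algebraMap ℂ F))) F) ∈
        Polynomial.lifts (algebraMap ℂ F) := by
      rw [Polynomial.lifts_iff_coeff_lifts]
      intro n
      rw [Polynomial.coeff_map]
      exact ⟨e (p.coeff n), he _⟩
    obtain ⟨q, hq1, -, hq2⟩ := Polynomial.lifts_and_natDegree_eq_and_monic h5 (hp.map _)
    refine ⟨q, hq2, ?_⟩
    rw [Polynomial.eval₂_eq_eval_map, hq1, ← Polynomial.eval₂_eq_eval_map]
    exact hpu
  obtain ⟨c, hc⟩ := (IsAlgClosed.algebraMap_bijective_of_isIntegral (k := ℂ)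
    (K := integralClosure ℂ F)).2 ⟨u, h3⟩
  exact ⟨c, congrArg Subtype.val hc.symm⟩

/-! ## The integral closure of `ℂ[y]` -/

section closure

variable {F : Type} [Field F] [Algebra ℂ F] (y : F)

/-- `ℂ[y]` -/
abbrev AA : Subalgebra ℂ F := Algebra.adjoin ℂ {y}

/-- the integral closure of `ℂ[y]` -/
abbrev BB : Subalgebra (AA y) F := integralClosure (AA y) F

theorem isPrincipal : IsPrincipalIdealRing (AA y) := by
  let φ : ℂ[X] →+* AA y := (aeval y : ℂ[X] →ₐ[ℂ] F).toRingHom.codRestrict (AA y) fun p => by
    change aeval y p ∈ Algebra.adjoin ℂ {y}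
    rw [Algebra.adjoin_singleton_eq_range_aeval]
    exact ⟨p, rfl⟩
  refine IsPrincipalIdealRing.of_surjective φ ?_
  rintro ⟨a, ha⟩
  have ha' : a ∈ Algebra.adjoin ℂ {y} := ha
  rw [Algebra.adjoin_singleton_eq_range_aeval] at ha'
  obtain ⟨p, hp⟩ := ha'
  exact ⟨p, Subtype.ext hp⟩

open scoped IntermediateField.algebraAdjoinAdjoin in
theorem dedekind [Algebra.EssFiniteType ℂ F]
    (halg : ∀ u : F, IsAlgebraic (IntermediateField.adjoin ℂ {y}) u) :
    IsDedekindDomain (BB y) ∧ IsFractionRing (BB y) F := by
  have h1 := isPrincipal y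
  have h2 : Algebra.EssFiniteType (IntermediateField.adjoin ℂ {y}) F :=
    Algebra.EssFiniteType.of_comp ℂ _ F
  have h3 : Algebra.IsAlgebraic (IntermediateField.adjoin ℂ {y}) F := ⟨halg⟩
  have h4 : Module.Finite (IntermediateField.adjoin ℂ {y}) F :=
    Algebra.finite_of_essFiniteType_of_isAlgebraic
  exact ⟨integralClosure.isDedekindDomain (AA y) (IntermediateField.adjoin ℂ {y}) F,
    integralClosure.isFractionRing_of_finite_extension (A := AA y)
      (IntermediateField.adjoin ℂ {y}) F⟩

/-- `y` as an element of its integral closure -/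
noncomputable def yy : BB y := algebraMap (AA y) (BB y) ⟨y, Algebra.self_mem_adjoin_singleton ℂ y⟩

theorem coe_yy : ((yy y : BB y) : F) = y := rfl

theorem residue [IsDedekindDomain (BB y)] (q : HeightOneSpectrum (BB y)) (hy : yy y ∈ q.asIdeal)
    (b : BB y) : ∃ c : ℂ, b - algebraMap ℂ (BB y) c ∈ q.asIdeal := by
  have hA : ∀ a : AA y, ∃ c : ℂ,
      algebraMap (AA y) (BB y) a - algebraMap ℂ (BB y) c ∈ q.asIdeal := by
    rintro ⟨a, ha⟩
    have ha' : a ∈ Algebra.adjoin ℂ {y} := ha
    rw [Algebra.adjoin_singleton_eq_range_aeval] at ha'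
    obtain ⟨P, hP⟩ := ha'
    refine ⟨P.coeff 0, ?_⟩
    have hQ : aeval y P.divX ∈ Algebra.adjoin ℂ {y} := by
      rw [Algebra.adjoin_singleton_eq_range_aeval]
      exact ⟨P.divX, rfl⟩
    have h1 : algebraMap (AA y) (BB y) ⟨a, ha⟩ - algebraMap ℂ (BB y) (P.coeff 0) =
        yy y * algebraMap (AA y) (BB y) ⟨aeval y P.divX, hQ⟩ := by
      apply Subtype.ext
      change a - algebraMap ℂ F (P.coeff 0) = y * aeval y P.divX
      have h2 : aeval y P = a := hP
      have h3 : aeval y (X * P.divX + C (P.coeff 0)) = a := by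
        rw [Polynomial.X_mul_divX_add]
        exact h2
      rw [← h3, map_add, map_mul, aeval_X, aeval_C]
      ring
    rw [h1]
    exact Ideal.mul_mem_right _ _ hy
  have hint : Algebra.IsIntegral ℂ (BB y ⧸ q.asIdeal) := by
    refine ⟨fun b' => ?_⟩
    obtain ⟨b, rfl⟩ := Ideal.Quotient.mk_surjective b'
    obtain ⟨p, hp, hpb⟩ : IsIntegral (AA y) (b : F) := b.2
    have hpb' : Polynomial.eval₂ (algebraMap (AA y) (BB y)) b p = 0 := by
      apply Subtype.val_injective
      have h1 := Polynomial.hom_eval₂ p (algebraMap (AA y) (BB y)) (BB y).val.toRingHom b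
      exact h1.trans hpb
    choose e he using hA
    have h5 : p.map ((Ideal.Quotient.mk q.asIdeal).comp (algebraMap (AA y) (BB y))) ∈
        Polynomial.lifts (algebraMap ℂ (BB y ⧸ q.asIdeal)) := by
      rw [Polynomial.lifts_iff_coeff_lifts]
      intro n
      rw [Polynomial.coeff_map]
      refine ⟨e (p.coeff n), ?_⟩
      exact (Ideal.Quotient.eq.mpr (he (p.coeff n))).symm
    obtain ⟨r, hr1, -, hr2⟩ := Polynomial.lifts_and_natDegree_eq_and_monic h5 (hp.map _)
    refine ⟨r, hr2, ?_⟩
    rw [Polynomial.eval₂_eq_eval_map, hr1, ← Polynomial.eval₂_eq_eval_map,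
      ← Polynomial.hom_eval₂, hpb', map_zero]
  have := q.isPrime
  obtain ⟨c, hc⟩ := (IsAlgClosed.algebraMap_bijective_of_isIntegral (k := ℂ)
    (K := BB y ⧸ q.asIdeal)).2 (Ideal.Quotient.mk _ b)
  refine ⟨c, ?_⟩
  rw [← Ideal.Quotient.eq]
  exact hc.symm

omit [Algebra ℂ F] in
theorem mem_of_integral {R : Type} [CommRing R] [Algebra R F] (V : ValuationSubring F)
    (hV : ∀ r : R, algebraMap R F r ∈ V) {u : F} (hu : IsIntegral R u) : u ∈ V := by
  obtain ⟨p, hp, hpu⟩ := hu
  let g : R →+* V := (algebraMap R F).codRestrict V hV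
  have h1 : IsIntegral V u := by
    refine ⟨p.map g, hp.map g, ?_⟩
    rw [Polynomial.eval₂_map]
    exact hpu
  obtain ⟨v, hv⟩ := IsIntegrallyClosed.isIntegral_iff.mp h1
  rw [← hv]
  exact v.2

theorem adjoin_mem (V : ValuationSubring F) (hV : ∀ c : ℂ, algebraMap ℂ F c ∈ V) {z : F}
    (hz : z ∈ V) {u : F} (hu : u ∈ Algebra.adjoin ℂ {z}) : u ∈ V := by
  let V' : Subalgebra ℂ F := { V.toSubring with algebraMap_mem' := hV }
  have : Algebra.adjoin ℂ {z} ≤ V' := by
    apply Algebra.adjoin_le
    intro w hw
    rw [Set.mem_singleton_iff] at hw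
    rw [hw]
    exact hz
  exact this hu

theorem center [IsDedekindDomain (BB y)] [IsFractionRing (BB y) F] (V : ValuationSubring F)
    (hV : ∀ c : ℂ, algebraMap ℂ F c ∈ V) (hy0 : y ≠ 0) (hy : y ∈ V) (hy' : y⁻¹ ∉ V) :
    ∃ q : HeightOneSpectrum (BB y), yy y ∈ q.asIdeal ∧
      ∀ u : F, q.valuation F u ≤ 1 → u ∈ V := by
  have hB : ∀ b : BB y, (BB y).val.toRingHom b ∈ V := fun b =>
    mem_of_integral V (fun a : AA y => adjoin_mem V hV hy a.2) b.2
  let φ : BB y →+* V := (BB y).val.toRingHom.codRestrict V hB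
  have hφ : ∀ b : BB y, ((φ b : V) : F) = b := fun b => rfl
  have hyq : yy y ∈ Ideal.comap φ (IsLocalRing.maximalIdeal V) := by
    rw [Ideal.mem_comap, IsLocalRing.mem_maximalIdeal, mem_nonunits_iff]
    intro hu
    obtain ⟨w, hw⟩ := isUnit_iff_exists_inv.mp hu
    have h1 : y * (w : F) = 1 := congrArg Subtype.val hw
    have h2 : (w : F) = y⁻¹ := (eq_inv_of_mul_eq_one_right h1)
    exact hy' (h2 ▸ w.2)
  refine ⟨⟨Ideal.comap φ (IsLocalRing.maximalIdeal V), Ideal.comap_isPrime _ _, ?_⟩, hyq, ?_⟩
  · intro hbot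
    rw [hbot, Ideal.mem_bot] at hyq
    exact hy0 (congrArg Subtype.val hyq)
  · intro u hu
    obtain ⟨n, d, hnd⟩ := HeightOneSpectrum.exists_primeCompl_mul_eq_of_integer _ u hu
    have hd : IsUnit (φ d) := by
      by_contra hc
      exact d.2 hc
    obtain ⟨w, hw⟩ := isUnit_iff_exists_inv.mp hd
    have h1 : ((d : BB y) : F) * (w : F) = 1 := congrArg Subtype.val hw
    have h2 : u = (n : F) * (w : F) := by
      calc u = u * (((d : BB y) : F) * (w : F)) := by rw [h1, mul_one]
        _ = (u * algebraMap (BB y) F d) * w := by rw [mul_assoc]; rfl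
        _ = (n : F) * (w : F) := by rw [hnd]; rfl
    rw [h2]
    exact V.mul_mem _ _ (hB n) w.2

end closure

theorem st_PLACE : ST_PLACE := by
  intro O _ _ h
  have := h.dom
  have := h.ft
  obtain ⟨x, hx0, hx⟩ := exists_x O h
  obtain ⟨y, hydef⟩ : ∃ y : FractionRing O, y = (algebraMap O (FractionRing O) x)⁻¹ := ⟨_, rfl⟩
  have hinj : Function.Injective (algebraMap O (FractionRing O)) :=
    IsFractionRing.injective O (FractionRing O)
  have hx0' : algebraMap O (FractionRing O) x ≠ 0 := by
    rw [Ne, map_eq_zero_iff _ hinj]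
    exact hx0
  have hy0 : y ≠ 0 := by
    rw [hydef]
    exact inv_ne_zero hx0'
  have hess : Algebra.EssFiniteType ℂ (FractionRing O) := by
    have : Algebra.EssFiniteType O (FractionRing O) :=
      Algebra.EssFiniteType.of_isLocalization _ (nonZeroDivisors O)
    exact Algebra.EssFiniteType.comp ℂ O (FractionRing O)
  -- integrality over a valuation ring containing `x`
  have hOV : ∀ V : ValuationSubring (FractionRing O),
      (∀ c : ℂ, algebraMap ℂ (FractionRing O) c ∈ V) → algebraMap O (FractionRing O) x ∈ V →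
      ∀ f : O, algebraMap O (FractionRing O) f ∈ V := by
    intro V hV hxV f
    have h1 : IsIntegral (Algebra.adjoin ℂ {x}) (algebraMap O (FractionRing O) f) :=
      (hx f).map (IsScalarTower.toAlgHom (Algebra.adjoin ℂ {x}) O (FractionRing O))
    refine mem_of_integral V (fun a : Algebra.adjoin ℂ {x} => ?_) h1
    have h2 : algebraMap O (FractionRing O) a ∈
        Algebra.adjoin ℂ {algebraMap O (FractionRing O) x} := by
      have h3 := AlgHom.map_adjoin_singleton (IsScalarTower.toAlgHom ℂ O (FractionRing O)) x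
      have h4 : algebraMap O (FractionRing O) a ∈
        (Algebra.adjoin ℂ {x}).map (IsScalarTower.toAlgHom ℂ O (FractionRing O)) := ⟨a, a.2, rfl⟩
      rw [h3] at h4
      exact h4
    exact adjoin_mem V hV hxV h2
  have hxK : algebraMap O (FractionRing O) x ∈ IntermediateField.adjoin ℂ {y} := by
    have : algebraMap O (FractionRing O) x = y⁻¹ := by rw [hydef, inv_inv]
    rw [this]
    exact inv_mem (IntermediateField.mem_adjoin_simple_self ℂ y)
  have halgO : ∀ f : O, IsAlgebraic (IntermediateField.adjoin ℂ {y})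
      (algebraMap O (FractionRing O) f) := by
    intro f
    obtain ⟨p, hp, hpf⟩ := hx f
    have h1 : ∀ a : Algebra.adjoin ℂ {x},
        ((algebraMap O (FractionRing O)).comp (algebraMap (Algebra.adjoin ℂ {x}) O)) a ∈
        IntermediateField.adjoin ℂ {y} := by
      rintro ⟨a, ha⟩
      have h3 := AlgHom.map_adjoin_singleton (IsScalarTower.toAlgHom ℂ O (FractionRing O)) x
      have h4 : algebraMap O (FractionRing O) a ∈
        (Algebra.adjoin ℂ {x}).map (IsScalarTower.toAlgHom ℂ O (FractionRing O)) := ⟨a, ha, rfl⟩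
      rw [h3] at h4
      have h5 : Algebra.adjoin ℂ {algebraMap O (FractionRing O) x} ≤
          (IntermediateField.adjoin ℂ {y}).toSubalgebra := by
        apply Algebra.adjoin_le
        intro w hw
        rw [Set.mem_singleton_iff] at hw
        rw [hw]
        exact hxK
      exact h5 h4
    let g : Algebra.adjoin ℂ {x} →+* IntermediateField.adjoin ℂ {y} :=
      ((algebraMap O (FractionRing O)).comp (algebraMap (Algebra.adjoin ℂ {x}) O)).codRestrict
        (IntermediateField.adjoin ℂ {y}) h1
    refine IsIntegral.isAlgebraic ⟨p.map g, hp.map g, ?_⟩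
    rw [Polynomial.eval₂_map]
    have h6 := Polynomial.hom_eval₂ p (algebraMap (Algebra.adjoin ℂ {x}) O)
      (algebraMap O (FractionRing O)) f
    rw [hpf, map_zero] at h6
    exact h6.symm
  have halg : ∀ u : FractionRing O, IsAlgebraic (IntermediateField.adjoin ℂ {y}) u := by
    intro u
    obtain ⟨a, b, -, rfl⟩ := IsFractionRing.div_surjective (A := O) u
    exact (halgO a).mul (halgO b).inv
  obtain ⟨hDed, hFrac⟩ := dedekind y halg
  -- the finite set of places
  have hfin : {q : HeightOneSpectrum (BB y) | yy y ∈ q.asIdeal}.Finite := by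
    have hne : (Ideal.span {yy y} : Ideal (BB y)) ≠ 0 := by
      rw [Ne, Ideal.zero_eq_bot, Ideal.span_singleton_eq_bot]
      intro h0
      exact hy0 (congrArg Subtype.val h0)
    refine (Ideal.finite_factors hne).subset ?_
    intro q hq
    exact Ideal.dvd_span_singleton.mpr hq
  have := hfin.to_subtype
  obtain ⟨n, ⟨e⟩⟩ := Finite.exists_equiv_fin {q : HeightOneSpectrum (BB y) | yy y ∈ q.asIdeal}
  have hval0 : ∀ (i : Fin n) (u : FractionRing O), u ≠ 0 →
      (e.symm i).1.valuation (FractionRing O) u ≠ 0 := fun i u hu =>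
    (Valuation.ne_zero_iff _).mpr hu
  have hc1 : ∀ (q : HeightOneSpectrum (BB y)) (c : ℂ),
      q.valuation (FractionRing O) (algebraMap ℂ (FractionRing O) c) ≤ 1 := by
    intro q c
    exact q.valuation_le_one (K := FractionRing O) (algebraMap ℂ (BB y) c)
  refine ⟨n, fun i f => - WithZero.log ((e.symm i).1.valuation (FractionRing O)
    (algebraMap O (FractionRing O) f)), ?_, ?_, ?_, ?_, ?_, ?_⟩
  · intro i f g hf hg
    have hf' : algebraMap O (FractionRing O) f ≠ 0 := by rwa [Ne, map_eq_zero_iff _ hinj]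
    have hg' : algebraMap O (FractionRing O) g ≠ 0 := by rwa [Ne, map_eq_zero_iff _ hinj]
    simp only [map_mul]
    rw [WithZero.log_mul (hval0 i _ hf') (hval0 i _ hg')]
    ring
  · intro i f g hf hg hfg
    have hf' : algebraMap O (FractionRing O) f ≠ 0 := by rwa [Ne, map_eq_zero_iff _ hinj]
    have hg' : algebraMap O (FractionRing O) g ≠ 0 := by rwa [Ne, map_eq_zero_iff _ hinj]
    have hfg' : algebraMap O (FractionRing O) (f + g) ≠ 0 := by rwa [Ne, map_eq_zero_iff _ hinj]
    have h1 := (e.symm i).1.valuation (FractionRing O) |>.map_add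
      (algebraMap O (FractionRing O) f) (algebraMap O (FractionRing O) g)
    rw [← map_add] at h1
    rcases le_max_iff.mp h1 with h2 | h2
    · rw [← WithZero.log_le_log (hval0 i _ hfg') (hval0 i _ hf')] at h2
      exact (min_le_left _ _).trans (neg_le_neg h2)
    · rw [← WithZero.log_le_log (hval0 i _ hfg') (hval0 i _ hg')] at h2
      exact (min_le_right _ _).trans (neg_le_neg h2)
  · intro i c hc
    have h1 : (e.symm i).1.valuation (FractionRing O) (algebraMap ℂ (FractionRing O) c) = 1 := by
      refine le_antisymm (hc1 _ c) ?_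
      have h2 := hc1 (e.symm i).1 c⁻¹
      have hc' : algebraMap ℂ (FractionRing O) c ≠ 0 := by
        rw [Ne, map_eq_zero_iff _ (algebraMap ℂ (FractionRing O)).injective]
        exact hc
      rw [map_inv₀, map_inv₀] at h2
      exact (inv_le_one₀ (zero_lt_iff.mpr (hval0 i _ hc'))).mp h2
    have h3 : algebraMap O (FractionRing O) (algebraMap ℂ O c) = algebraMap ℂ (FractionRing O) c :=
      (IsScalarTower.algebraMap_apply ℂ O (FractionRing O) c).symm
    show - WithZero.log _ = 0
    rw [h3, h1, WithZero.log_one, neg_zero]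
  · intro i f g hf hg hfg
    have hf' : algebraMap O (FractionRing O) f ≠ 0 := by rwa [Ne, map_eq_zero_iff _ hinj]
    have hg' : algebraMap O (FractionRing O) g ≠ 0 := by rwa [Ne, map_eq_zero_iff _ hinj]
    have hvf := hval0 i _ hf'
    have hvg := hval0 i _ hg'
    have hv : (e.symm i).1.valuation (FractionRing O) (algebraMap O (FractionRing O) f) =
        (e.symm i).1.valuation (FractionRing O) (algebraMap O (FractionRing O) g) := by
      rw [← WithZero.exp_log hvf, ← WithZero.exp_log hvg]
      exact congrArg _ (neg_injective hfg)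
    obtain ⟨u, hu⟩ : ∃ u, u = algebraMap O (FractionRing O) f / algebraMap O (FractionRing O) g :=
      ⟨_, rfl⟩
    have hu1 : (e.symm i).1.valuation (FractionRing O) u = 1 := by
      rw [hu, map_div₀, hv, div_self hvg]
    obtain ⟨a, ha⟩ := HeightOneSpectrum.exists_valuation_sub_lt_of_integer (e.symm i).1 hu1.le 1
    obtain ⟨c, hc⟩ := residue y (e.symm i).1 (e.symm i).2 a
    have hc2 : (e.symm i).1.valuation (FractionRing O)
        (algebraMap (BB y) (FractionRing O) (a - algebraMap ℂ (BB y) c)) < 1 :=
      ((e.symm i).1.valuation_lt_one_iff_mem _).mpr hc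
    have hc3 : (e.symm i).1.valuation (FractionRing O)
        (u - algebraMap ℂ (FractionRing O) c) < 1 := by
      have h1 : u - algebraMap ℂ (FractionRing O) c =
          algebraMap (BB y) (FractionRing O) (a - algebraMap ℂ (BB y) c) -
            (algebraMap (BB y) (FractionRing O) a - u) := by
        change _ = (a : FractionRing O) - algebraMap ℂ (FractionRing O) c -
            ((a : FractionRing O) - u)
        ring
      rw [h1]
      exact ((Valuation.map_sub _ _ _).trans_lt (max_lt hc2 ha))
    have hc0 : c ≠ 0 := by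
      rintro rfl
      rw [map_zero, sub_zero, hu1] at hc3
      exact lt_irrefl _ hc3
    refine ⟨c, hc0, ?_⟩
    by_cases hz : f - c • g = 0
    · exact Or.inl hz
    · right
      have hz' : algebraMap O (FractionRing O) (f - c • g) ≠ 0 := by
        rwa [Ne, map_eq_zero_iff _ hinj]
      have h2 : algebraMap O (FractionRing O) (f - c • g) =
          algebraMap O (FractionRing O) g * (u - algebraMap ℂ (FractionRing O) c) := by
        rw [map_sub, Algebra.smul_def, map_mul,
          ← IsScalarTower.algebraMap_apply ℂ O (FractionRing O), hu]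
        field_simp
      apply neg_lt_neg
      rw [WithZero.log_lt_log (hval0 i _ hz') hvf, h2, map_mul, hv]
      calc _ < (e.symm i).1.valuation (FractionRing O) (algebraMap O (FractionRing O) g) * 1 := by
            exact mul_lt_mul_of_pos_left hc3 (zero_lt_iff.mpr hvg)
        _ = _ := mul_one _
  · intro f hf hall
    have h1 : ∃ c : ℂ, algebraMap O (FractionRing O) f = algebraMap ℂ (FractionRing O) c := by
      apply const_of_forall
      intro V hV
      by_cases hxV : algebraMap O (FractionRing O) x ∈ V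
      · exact hOV V hV hxV f
      · have hyV : y ∈ V := by
          rw [hydef]
          exact (V.mem_or_inv_mem _).resolve_left hxV
        have hyV' : y⁻¹ ∉ V := by
          rw [hydef, inv_inv]
          exact hxV
        obtain ⟨q, hq, hqV⟩ := center y V hV hy0 hyV hyV'
        apply hqV
        have h2 := hall (e ⟨q, hq⟩)
        simp only [Equiv.symm_apply_apply] at h2
        have hf' : algebraMap O (FractionRing O) f ≠ 0 := by rwa [Ne, map_eq_zero_iff _ hinj]
        rw [← WithZero.log_le_log ((Valuation.ne_zero_iff _).mpr hf') one_ne_zero,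
          WithZero.log_one]
        exact neg_nonneg.mp h2
    obtain ⟨c, hc⟩ := h1
    refine ⟨c, hinj ?_⟩
    rw [hc]
    exact IsScalarTower.algebraMap_apply ℂ O (FractionRing O) c
  · intro a i
    let φ : FractionRing O ≃+* FractionRing O :=
      IsFractionRing.ringEquivOfRingEquiv a.toRingEquiv
    have hφ : ∀ f : O, φ (algebraMap O (FractionRing O) f) = algebraMap O (FractionRing O) (a f) :=
      fun f => IsFractionRing.ringEquivOfRingEquiv_algebraMap a.toRingEquiv f
    have hφc : ∀ c : ℂ, φ (algebraMap ℂ (FractionRing O) c) = algebraMap ℂ (FractionRing O) c := by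
      intro c
      rw [IsScalarTower.algebraMap_apply ℂ O (FractionRing O), hφ, a.commutes]
    let v₁ : Valuation (FractionRing O) (WithZero (Multiplicative ℤ)) :=
      ((e.symm i).1.valuation (FractionRing O)).comap (φ : FractionRing O →+* FractionRing O)
    have hv₁ : ∀ u, v₁ u = (e.symm i).1.valuation (FractionRing O) (φ u) := fun u => rfl
    have hV : ∀ c : ℂ, algebraMap ℂ (FractionRing O) c ∈ v₁.valuationSubring := by
      intro c
      rw [Valuation.mem_valuationSubring_iff, hv₁, hφc]
      exact hc1 _ c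
    have hyq : (e.symm i).1.valuation (FractionRing O) y < 1 := by
      have := ((e.symm i).1.valuation_lt_one_iff_mem (K := FractionRing O) (yy y)).mpr (e.symm i).2
      exact this
    have hxV : algebraMap O (FractionRing O) x ∉ v₁.valuationSubring := by
      intro hxV
      have h2 := hOV _ hV hxV (a.symm x)
      rw [Valuation.mem_valuationSubring_iff, hv₁, hφ, AlgEquiv.apply_symm_apply] at h2
      have h3 : (e.symm i).1.valuation (FractionRing O) y *
          (e.symm i).1.valuation (FractionRing O) (algebraMap O (FractionRing O) x) = 1 := by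
        have h5 : y * algebraMap O (FractionRing O) x = 1 := by
          rw [hydef]
          exact inv_mul_cancel₀ hx0'
        rw [← map_mul, h5, map_one]
      have h6 : (1 : WithZero (Multiplicative ℤ)) < 1 := by
        calc (1 : WithZero (Multiplicative ℤ)) = (e.symm i).1.valuation (FractionRing O) y *
          (e.symm i).1.valuation (FractionRing O) (algebraMap O (FractionRing O) x) := h3.symm
          _ ≤ (e.symm i).1.valuation (FractionRing O) y * 1 := by gcongr
          _ = (e.symm i).1.valuation (FractionRing O) y := mul_one _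
          _ < 1 := hyq
      exact lt_irrefl _ h6
    have hyV : y ∈ v₁.valuationSubring := by
      rw [hydef]
      exact (v₁.valuationSubring.mem_or_inv_mem _).resolve_left hxV
    have hyV' : y⁻¹ ∉ v₁.valuationSubring := by
      rw [hydef, inv_inv]
      exact hxV
    obtain ⟨q, hq, hqV⟩ := center y v₁.valuationSubring hV hy0 hyV hyV'
    have hsurj : Function.Surjective v₁ :=
      ((e.symm i).1.valuation_surjective (FractionRing O)).comp φ.surjective
    have huni := val_unique v₁ (q.valuation (FractionRing O)) hsurj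
      (q.valuation_surjective (FractionRing O)) (fun u hu =>
        (Valuation.mem_valuationSubring_iff _ _).mp (hqV u hu))
    refine ⟨e ⟨q, hq⟩, fun f _ => ?_⟩
    simp only [Equiv.symm_apply_apply]
    rw [← huni, hv₁, hφ]

end PLACE

end Pool.Agent.Helper43.RS
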